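import Pool.Agent.Helper51.PP.Spec

/-! Swarm PC, part CHAR: the characteristic function of the scaled law. -/

set_option autoImplicit false

namespace Pool.Agent.Helper71.PC.CHAR

open MeasureTheory ProbabilityTheory Filter Topology Pool.Agent.Helper51.PP
open scoped ENNReal BigOperators

variable {d : ℕ}

/-- the measure of the law after `n + 1` steps is an average -/
theorem toMeasure_succ [NeZero d] (ω : Conf d) (n : ℕ) (v : Fin d → ℤ) :
    (walkLaw ω (n + 1) v).toMeasure =
      ∑ e : Fin d × Bool, ((Fintype.card (Fin d × Bool) : ℝ≥0∞)⁻¹) •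
        (walkLaw ω n (nextPt ω v e)).toMeasure := by
  ext s hs
  rw [walkLaw, PMF.toMeasure_bind_apply _ _ _ hs, Measure.finsetSum_apply, tsum_fintype]
  refine Finset.sum_congr rfl fun e _ => ?_
  rw [Measure.smul_apply, PMF.uniformOfFintype_apply, smul_eq_mul]

/-- expectations of bounded functions -/
theorem integral_law [NeZero d] (ω : Conf d) (F : (Fin d → ℤ) → ℂ) (hF : ∀ v, ‖F v‖ ≤ 1) (n : ℕ) :
    ∀ v : Fin d → ℤ, ∫ x, F x ∂(walkLaw ω n v).toMeasure = EV (nextPt ω) F n v := by
  have hint : ∀ μ : Measure (Fin d → ℤ), IsFiniteMeasure μ → Integrable F μ := fun μ _ =>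
    Integrable.of_bound (Measurable.of_discrete (f := F)).aestronglyMeasurable 1
      (Eventually.of_forall hF)
  induction n with
  | zero =>
    intro v
    rw [walkLaw, PMF.toMeasure_pure, integral_dirac, EV]
  | succ n ih =>
    intro v
    rw [toMeasure_succ, integral_finsetSum_measure]
    · rw [EV, Finset.mul_sum]
      refine Finset.sum_congr rfl fun e _ => ?_
      rw [integral_smul_measure, ih, ENNReal.toReal_inv, ENNReal.toReal_natCast, Complex.real_smul]
      push_cast
      rfl
    · intro e _
      refine (hint _ inferInstance).smul_measure ?_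
      simp [NeZero.ne d]

theorem main : S_CHAR := by
  intro d _ ω n t
  have h1 : ((scaledLaw ω n : ProbabilityMeasure (EuclideanSpace ℝ (Fin d))) :
      Measure (EuclideanSpace ℝ (Fin d))) = ((walkLaw ω n 0).toMeasure).map (rescale d n) := rfl
  rw [h1, charFun_apply, integral_map (Measurable.of_discrete (f := rescale d n)).aemeasurable
    (by fun_prop)]
  rw [← integral_law ω _ (fun v => by rw [mul_comm Complex.I, Complex.norm_exp_ofReal_mul_I]) n 0]
  refine integral_congr_ae (Eventually.of_forall fun v => ?_)
  simp only [rescale]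
  rw [inner_smul_left, mul_comm Complex.I]
  congr 3


end Pool.Agent.Helper71.PC.CHAR
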